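import Pool.Agent.Q105.MPB.Basic
import Pool.Agent.Q105.MPB.Alg

/-! The multiplicity classes of graphs with two eigenvalues are not nested: a graph with ten
vertices and 23 edges achieves `[6, 4]` and does not achieve `[5, 5]`. -/

namespace Pool.Agent.Results.MP_808179_co.NotNested

open Matrix Polynomial Finset Pool.Agent.Q105.MPB

/-- an integral symmetric matrix `Z` with `Z * Z = 42 ^ 2 • 1` and trace `-84` -/
def Z : Matrix (Fin 10) (Fin 10) ℤ :=
  !![7, 0, 0, 0, 0, 0, 35, 7, 0, 21;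
     0, 7, 0, 0, 35, 7, 0, 0, 21, 0;
     0, 0, 22, 0, 0, -24, 0, 24, 8, -8;
     0, 0, 0, -26, 12, 0, 12, 0, -20, -20;
     0, 35, 0, 12, -8, 5, 9, 0, 0, -15;
     0, 7, -24, 0, 5, -32, 0, -9, 0, 3;
     35, 0, 0, 12, 9, 0, -8, 5, -15, 0;
     7, 0, 24, 0, 0, -9, 5, -32, 3, 0;
     0, 21, 8, -20, 0, 0, -15, 3, -7, 24;
     21, 0, -8, -20, -15, 3, 0, 0, 24, -7]

theorem Z_symm : Z.transpose = Z := by decide +kernel

/-- the graph: `i` and `j` are adjacent when `Z i j ≠ 0` -/
def G : SimpleGraph (Fin 10) where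
  Adj i j := i ≠ j ∧ Z i j ≠ 0
  symm := ⟨fun i j h => ⟨h.1.symm, by rw [← Z_symm]; exact h.2⟩⟩
  loopless := ⟨fun i h => h.1 rfl⟩

theorem Z_sq : Z * Z = (1764 : ℤ) • (1 : Matrix (Fin 10) (Fin 10) ℤ) := by decide +kernel

theorem Z_trace : Z.trace = -84 := by decide +kernel

theorem achieves : Achieves G 6 4 := by
  refine ⟨Z.map (Int.cast : ℤ → ℝ), ⟨?_, ?_⟩, -42, 42, by norm_num, ?_⟩
  · unfold Matrix.IsSymm
    rw [← transpose_map, Z_symm]
  · intro i j hij
    rw [map_apply, Int.cast_ne_zero]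
    exact ⟨fun h => ⟨hij, h⟩, fun h => h.2⟩
  · have hs : (Z.map (Int.cast : ℤ → ℝ)).IsSymm := by
      unfold Matrix.IsSymm
      rw [← transpose_map, Z_symm]
    have h := charpoly_of_sq (m := 6) (k := 4) (c := -42) hs (by norm_num) (by
      have h1 := congrArg (fun M : Matrix (Fin 10) (Fin 10) ℤ => M.map (Int.cast : ℤ → ℝ)) Z_sq
      ext i j
      have h2 := congrFun (congrFun h1 i) j
      simp only [map_apply, Matrix.mul_apply, Int.cast_sum, Int.cast_mul, Matrix.smul_apply,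
        smul_eq_mul, Matrix.one_apply] at h2 ⊢
      rw [h2]
      push_cast
      norm_num) (by simp) (by
      have h1 : (Z.map (Int.cast : ℤ → ℝ)).trace = ((Z.trace : ℤ) : ℝ) := by
        simp [Matrix.trace]
      rw [h1, Z_trace]
      norm_num)
    rw [h]
    norm_num

theorem not_achieves : ¬ Achieves G 5 5 := by
  rintro ⟨A, ⟨hs, hA⟩, α, β, hne, hc⟩
  have hq := prod_eq_zero hs hc
  have htr := trace_eq hs hc
  have hz : ∀ i j, i ≠ j → Z i j = 0 → A i j = 0 := by
    intro i j hij h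
    by_contra hcon
    exact ((hA i j hij).1 hcon).2 h
  have hn : ∀ i j, i ≠ j → Z i j ≠ 0 → A i j ≠ 0 := fun i j hij h => (hA i j hij).2 ⟨hij, h⟩
  have hsy : ∀ i j, j < i → A i j = A j i := fun i j _ => hs.apply j i
  have key : ∀ i j, i ≠ j → A i 0 * A 0 j + A i 1 * A 1 j + A i 2 * A 2 j + A i 3 * A 3 j +
      A i 4 * A 4 j + A i 5 * A 5 j + A i 6 * A 6 j + A i 7 * A 7 j + A i 8 * A 8 j +
      A i 9 * A 9 j = (α + β) * A i j := by
    intro i j hij
    have h1 : A * A = (α + β) • A - (α * β) • (1 : Matrix (Fin 10) (Fin 10) ℝ) := by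
      have h2 : (A - α • (1 : Matrix (Fin 10) (Fin 10) ℝ)) *
          (A - β • (1 : Matrix (Fin 10) (Fin 10) ℝ)) =
          A * A - (α + β) • A + (α * β) • (1 : Matrix (Fin 10) (Fin 10) ℝ) := by
        rw [sub_mul, mul_sub, mul_sub, Matrix.mul_smul, Matrix.mul_one, Matrix.smul_mul,
          Matrix.one_mul, Matrix.smul_mul, Matrix.mul_smul, Matrix.mul_one, smul_smul, add_smul]
        abel
      rw [h2] at hq
      have h3 : A * A = A * A - (α + β) • A + (α * β) • (1 : Matrix (Fin 10) (Fin 10) ℝ) +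
          ((α + β) • A - (α * β) • (1 : Matrix (Fin 10) (Fin 10) ℝ)) := by abel
      rw [h3, hq, zero_add]
    have h2 := congrFun (congrFun h1 i) j
    rw [Matrix.mul_apply, Matrix.sub_apply, Matrix.smul_apply, Matrix.smul_apply,
      Matrix.one_apply_ne hij, smul_zero, sub_zero, smul_eq_mul] at h2
    rw [← h2]
    simp only [Fin.sum_univ_succ, Fin.succ_zero_eq_one, Finset.univ_eq_empty, Finset.sum_empty]
    simp only [add_zero, ← add_assoc]
    rfl
  have tr : A 0 0 + A 1 1 + A 2 2 + A 3 3 + A 4 4 + A 5 5 + A 6 6 + A 7 7 + A 8 8 + A 9 9 =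
      5 * α + 5 * β := by
    have h1 : A.trace = A 0 0 + A 1 1 + A 2 2 + A 3 3 + A 4 4 + A 5 5 + A 6 6 + A 7 7 + A 8 8 +
        A 9 9 := by
      unfold Matrix.trace
      simp only [Matrix.diag_apply, Fin.sum_univ_succ, Fin.succ_zero_eq_one,
        Finset.univ_eq_empty, Finset.sum_empty]
      simp only [add_zero, ← add_assoc]
      rfl
    rw [← h1, htr]
    norm_num
  have k02 := key 0 2 (by decide)
  have k03 := key 0 3 (by decide)
  have k04 := key 0 4 (by decide)
  have k05 := key 0 5 (by decide)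
  have k12 := key 1 2 (by decide)
  have k13 := key 1 3 (by decide)
  have k16 := key 1 6 (by decide)
  have k17 := key 1 7 (by decide)
  have k24 := key 2 4 (by decide)
  have k35 := key 3 5 (by decide)
  have k09 := key 0 9 (by decide)
  have k18 := key 1 8 (by decide)
  have k25 := key 2 5 (by decide)
  have k34 := key 3 4 (by decide)
  have k27 := key 2 7 (by decide)
  have k36 := key 3 6 (by decide)
  have k46 := key 4 6 (by decide)
  have k57 := key 5 7 (by decide)
  simp (disch := decide) only [hz, mul_zero, zero_mul, add_zero, zero_add] at k02 k03 k04 k05 k12 k13 k16 k17 k24 k35 k09 k18 k25 k34 k27 k36 k46 k57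
  simp (disch := decide) only [hsy] at k02 k03 k04 k05 k12 k13 k16 k17 k24 k35 k09 k18 k25 k34 k27 k36 k46 k57
  refine contra (E₀ := A 0 0 - (α + β) / 2) (E₁ := A 1 1 - (α + β) / 2)
    (E₂ := A 2 2 - (α + β) / 2) (E₃ := A 3 3 - (α + β) / 2) (E₄ := A 4 4 - (α + β) / 2)
    (E₅ := A 5 5 - (α + β) / 2) (E₆ := A 6 6 - (α + β) / 2) (E₇ := A 7 7 - (α + β) / 2)
    (E₈ := A 8 8 - (α + β) / 2) (E₉ := A 9 9 - (α + β) / 2)
    (hn 0 6 (by decide) (by decide)) (hn 0 7 (by decide) (by decide))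
    (hn 0 9 (by decide) (by decide)) (hn 1 8 (by decide) (by decide))
    (hn 2 5 (by decide) (by decide)) (hn 2 7 (by decide) (by decide))
    (hn 3 4 (by decide) (by decide)) (hn 3 6 (by decide) (by decide))
    (hn 4 5 (by decide) (by decide)) (hn 4 6 (by decide) (by decide))
    (hn 5 7 (by decide) (by decide)) k02 k03 k04 k05 k12 k13 k16 k17 ?_ ?_ ?_ ?_ ?_ ?_ ?_ ?_ ?_ ?_ ?_
  all_goals linarith

/-- **The inclusion of the question fails**: for `n = 10`, `k = 4` the graph `G` achieves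
`[6, 4]` and does not achieve `[5, 5]`. -/
theorem result :
    (∃ G : SimpleGraph (Fin 10), Achieves G 6 4 ∧ ¬ Achieves G 5 5) ∧
    ¬ ∀ n k : ℕ, 3 ≤ k → k + 1 ≤ n / 2 → ∀ G : SimpleGraph (Fin n),
      Achieves G (n - k) k → Achieves G (n - k - 1) (k + 1) :=
  ⟨⟨G, achieves, not_achieves⟩,
    fun h => not_achieves (h 10 4 (by norm_num) (by norm_num) G achieves)⟩

end Pool.Agent.Results.MP_808179_co.NotNested
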